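import Mathlib

/-!
# Isomorphism testing time is not controlled by the number of isomorphism types

Problem MP_28ce77_lc, Q1.  We formalize the assertion of Q1 (`Q1` below) for multitape
deterministic Turing machines and refute it (`result`).
-/

namespace Pool.Agent.Results.MP_28ce77_lc.CountDoesNotBoundTime

open FirstOrder Filter Polynomial

/-! ## Signatures, classes of structures, number of isomorphism types -/

/-- A finite signature: the arities of its finitely many relation symbols and of its
finitely many function symbols (constants are function symbols of arity `0`). -/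
structure Sig where
  rels : List ℕ
  funs : List ℕ

/-- The first-order language of a finite signature. -/
def Sig.lang (σ : Sig) : Language where
  Functions k := {i : Fin σ.funs.length // σ.funs.get i = k}
  Relations k := {i : Fin σ.rels.length // σ.rels.get i = k}

/-- The members with universe `Fin n` of the class of finite models of the sentence `φ`. -/
def Mem {σ : Sig} (φ : σ.lang.Sentence) (n : ℕ) : Type :=
  {A : σ.lang.Structure (Fin n) // @Language.Sentence.Realize σ.lang (Fin n) A φ}

/-- Two structures on `Fin n` are isomorphic. -/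
def Iso {σ : Sig} {n : ℕ} (A B : σ.lang.Structure (Fin n)) : Prop :=
  Nonempty (@Language.Equiv σ.lang (Fin n) (Fin n) A B)

/-- Isomorphism as an equivalence relation on the `n`-element members of a class. -/
def isoSetoid {σ : Sig} (φ : σ.lang.Sentence) (n : ℕ) : Setoid (Mem φ n) where
  r A B := Iso A.1 B.1
  iseqv :=
    { refl := fun A => ⟨@Language.Equiv.refl σ.lang (Fin n) A.1⟩
      symm := fun {A B} ⟨e⟩ => ⟨@Language.Equiv.symm σ.lang (Fin n) (Fin n) A.1 B.1 e⟩
      trans := fun {A B C} ⟨e⟩ ⟨f⟩ =>
        ⟨@Language.Equiv.comp σ.lang (Fin n) (Fin n) A.1 B.1 (Fin n) C.1 f e⟩ }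

/-- `f_L(n)`: the number of isomorphism types of `n`-element members of the class. -/
noncomputable def numTypes {σ : Sig} (φ : σ.lang.Sentence) (n : ℕ) : ℕ :=
  Nat.card (Quotient (isoSetoid φ n))

/-! ## Structures as words -/

/-- Tape symbols of input words: `some b` is a bit, `none` is the separator `#`. -/
abbrev Sym := Option Bool

open Classical in
/-- The full table of the `i`-th relation symbol: one bit for every tuple. -/
noncomputable def relTable {σ : Sig} {n : ℕ} (A : σ.lang.Structure (Fin n))
    (i : Fin σ.rels.length) : List Sym :=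
  (List.finRange (n ^ σ.rels.get i)).map fun t =>
    some (decide (@Language.Structure.RelMap σ.lang (Fin n) A (σ.rels.get i) ⟨i, rfl⟩
      (finFunctionFinEquiv.symm t)))

/-- A number below `2 ^ w` in binary, `w` bits, least significant first. -/
def bin (w v : ℕ) : List Sym := (List.range w).map fun j => some (v.testBit j)

/-- The full table of the `i`-th function symbol: the value in binary for every tuple. -/
noncomputable def funTable {σ : Sig} {n : ℕ} (A : σ.lang.Structure (Fin n))
    (i : Fin σ.funs.length) : List Sym :=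
  (List.finRange (n ^ σ.funs.get i)).flatMap fun t =>
    bin n.size (@Language.Structure.funMap σ.lang (Fin n) A (σ.funs.get i) ⟨i, rfl⟩
      (finFunctionFinEquiv.symm t)).val

/-- The word of a structure on `Fin n`: the full tables of all symbols, each followed by a
separator, and then the size `n` in binary. -/
noncomputable def word {σ : Sig} {n : ℕ} (A : σ.lang.Structure (Fin n)) : List Sym :=
  ((List.finRange σ.rels.length).flatMap fun i => relTable A i ++ [none]) ++
  ((List.finRange σ.funs.length).flatMap fun i => funTable A i ++ [none]) ++ bin n.size n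

/-! ## Multitape Turing machines -/

/-- A deterministic Turing machine with `k + 2` two-way infinite tapes.  Tape `0` and tape
`1` carry the two input words.  `out q = some b` means that `q` is a halting state with
answer `b`. -/
structure TM where
  k : ℕ
  Q : Type
  finQ : Fintype Q
  Γ : Type
  finΓ : Fintype Γ
  blank : Γ
  code : Sym → Γ
  start : Q
  out : Q → Option Bool
  δ : Q → (Fin (k + 2) → Γ) → Q × (Fin (k + 2) → Γ) × (Fin (k + 2) → SignType)

/-- Configurations: state, tape contents, head positions. -/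
structure TM.Cfg (M : TM) where
  q : M.Q
  tape : Fin (M.k + 2) → ℤ → M.Γ
  head : Fin (M.k + 2) → ℤ

/-- A word written on a blank tape from cell `0` on. -/
def TM.write (M : TM) (w : List Sym) (z : ℤ) : M.Γ :=
  if 0 ≤ z then (w[z.toNat]?).elim M.blank M.code else M.blank

/-- The initial configuration on a pair of words. -/
def TM.init (M : TM) (u v : List Sym) : M.Cfg where
  q := M.start
  tape := fun i => if i = 0 then M.write u else if i = 1 then M.write v else fun _ => M.blank
  head := fun _ => 0

/-- One step: read all scanned cells, write them, move every head by at most one cell.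
Halting states do not change the configuration. -/
def TM.step (M : TM) (c : M.Cfg) : M.Cfg :=
  match M.out c.q with
  | some _ => c
  | none =>
    let r := M.δ c.q fun i => c.tape i (c.head i)
    { q := r.1
      tape := fun i => Function.update (c.tape i) (c.head i) (r.2.1 i)
      head := fun i => c.head i + (r.2.2 i : ℤ) }

/-- On the words `u`, `v` the machine halts after exactly `t` steps with answer `b`. -/
def TM.HaltsIn (M : TM) (u v : List Sym) (t : ℕ) (b : Bool) : Prop :=
  M.out (M.step^[t] (M.init u v)).q = some b ∧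
    ∀ s < t, M.out (M.step^[s] (M.init u v)).q = none

/-- `M` is an isomorphism testing algorithm for the class of finite models of `φ`. -/
def IsTest {σ : Sig} (φ : σ.lang.Sentence) (M : TM) : Prop :=
  ∀ (n : ℕ) (A B : Mem φ n), ∃ (t : ℕ) (b : Bool),
    M.HaltsIn (word A.1) (word B.1) t b ∧ (b = true ↔ Iso A.1 B.1)

/-- `m_L(γ, n)`: the largest number of steps on a pair of `n`-element members. -/
noncomputable def maxTime {σ : Sig} (φ : σ.lang.Sentence) (M : TM) (n : ℕ) : ℕ :=
  sSup {t | ∃ (A B : Mem φ n) (b : Bool), M.HaltsIn (word A.1) (word B.1) t b}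

/-- The assertion of Q1. -/
def Q1 : Prop :=
  ∀ (σ τ : Sig) (J : σ.lang.Sentence) (K : τ.lang.Sentence),
    (∃ q : ℝ[X], ∀ n, (numTypes J n : ℝ) ≤ q.eval (numTypes K n : ℝ)) →
    ∃ p : ℝ[X], ∀ α : TM, IsTest K α → ∃ β : TM, IsTest J β ∧
      ∀ᶠ n in atTop, (maxTime J β n : ℝ) ≤ p.eval (maxTime K α n : ℝ)

/-! ## The two classes -/

/-- The signature with one unary relation symbol. -/
def sig1 : Sig := ⟨[1], []⟩

/-- The unary relation symbol. -/
def U : sig1.lang.Relations 1 := ⟨⟨0, by decide⟩, rfl⟩

/-- `J`: at most one element has property `U`. -/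
def phiJ : sig1.lang.Sentence :=
  ∀' ∀' ((U.boundedFormula₁ (&0)) ⟹ (U.boundedFormula₁ (&1)) ⟹ (&0 =' &1))

/-- `K`: all elements have property `U` or no element has property `U`. -/
def phiK : sig1.lang.Sentence :=
  (∀' (U.boundedFormula₁ (&0))) ⊔ (∀' ∼(U.boundedFormula₁ (&0)))

/-- The structure given by a predicate. -/
@[reducible] def S {n : ℕ} (P : Fin n → Prop) : sig1.lang.Structure (Fin n) where
  funMap := fun {k} f _ => absurd f.1.2 (by simp [sig1])
  RelMap := fun {k} _ x => ∃ j : Fin k, P (x j)

lemma S_relMap {n : ℕ} (P : Fin n → Prop) (x : Fin 1 → Fin n) :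
    @Language.Structure.RelMap sig1.lang (Fin n) (S P) 1 U x ↔ P (x 0) := by
  constructor
  · rintro ⟨j, hj⟩
    have : j = 0 := Subsingleton.elim _ _
    rwa [this] at hj
  · intro h
    exact ⟨0, h⟩

lemma eq_S {n : ℕ} (A : sig1.lang.Structure (Fin n)) :
    ∃ P : Fin n → Prop, A = S P := by
  refine ⟨fun x => @Language.Structure.RelMap sig1.lang (Fin n) A 1 U (fun _ => x), ?_⟩
  apply Language.Structure.ext
  · funext k f
    exact absurd f.1.2 (by simp [sig1])
  · funext k r x
    obtain ⟨i, hi⟩ := r
    have hi0 : i = ⟨0, by decide⟩ := by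
      apply Fin.ext
      have := i.2
      simp only [sig1, List.length_singleton] at this
      show i.val = 0
      omega
    subst hi0
    have hk : k = 1 := hi.symm
    subst hk
    apply propext
    constructor
    · intro h
      refine ⟨0, ?_⟩
      have hx : (fun _ => x 0 : Fin 1 → Fin n) = x := by
        funext j
        rw [Subsingleton.elim j 0]
      show @Language.Structure.RelMap sig1.lang (Fin n) A 1 U (fun _ => x 0)
      rw [hx]
      exact h
    · rintro ⟨j, hj⟩
      have hx : (fun _ => x j : Fin 1 → Fin n) = x := by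
        funext j'
        rw [Subsingleton.elim j' j]
      have hj' : @Language.Structure.RelMap sig1.lang (Fin n) A 1 U (fun _ => x j) := hj
      rw [hx] at hj'
      exact hj'

lemma iso_S {n : ℕ} (P Q : Fin n → Prop) :
    Iso (S P) (S Q) ↔ ∃ e : Fin n ≃ Fin n, ∀ x, P x ↔ Q (e x) := by
  constructor
  · rintro ⟨e⟩
    refine ⟨@Language.Equiv.toEquiv sig1.lang (Fin n) (Fin n) (S P) (S Q) e, fun x => ?_⟩
    have := @Language.Equiv.map_rel sig1.lang (Fin n) (Fin n) (S P) (S Q) e 1 U (fun _ => x)
    rw [S_relMap, S_relMap] at this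
    exact this.symm
  · rintro ⟨e, he⟩
    refine ⟨@Language.Equiv.mk sig1.lang (Fin n) (Fin n) (S P) (S Q) e ?_ ?_⟩
    · intro k f
      exact absurd f.1.2 (by simp [sig1])
    · intro k r x
      show (∃ j, Q ((e ∘ x) j)) ↔ ∃ j, P (x j)
      simp only [Function.comp, he]

lemma realize_J {n : ℕ} (P : Fin n → Prop) :
    @Language.Sentence.Realize sig1.lang (Fin n) (S P) phiJ ↔ ∀ x y, P x → P y → x = y := by
  let _ := S P
  simp only [phiJ, Language.Sentence.Realize, Language.Formula.Realize,
    Language.BoundedFormula.realize_all, Language.BoundedFormula.realize_imp,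
    Language.BoundedFormula.realize_rel₁, Language.BoundedFormula.realize_bdEqual,
    S_relMap]
  simp [Fin.snoc]

lemma realize_K {n : ℕ} (P : Fin n → Prop) :
    @Language.Sentence.Realize sig1.lang (Fin n) (S P) phiK ↔
      (∀ x, P x) ∨ (∀ x, ¬ P x) := by
  let _ := S P
  simp only [phiK, Language.Sentence.Realize, Language.Formula.Realize,
    Language.BoundedFormula.realize_all, Language.BoundedFormula.realize_sup,
    Language.BoundedFormula.realize_not,
    Language.BoundedFormula.realize_rel₁, S_relMap]
  simp [Fin.snoc]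

open Classical in
lemma word_S {n : ℕ} (P : Fin n → Prop) :
    word (S P) = (List.ofFn fun x : Fin n => (some (decide (P x)) : Sym)) ++
      (none :: bin n.size n) := by
  have h1 : (List.finRange sig1.rels.length).flatMap
      (fun i => relTable (S P) i ++ [none]) = relTable (S P) ⟨0, by decide⟩ ++ [none] := by
    have h : List.finRange sig1.rels.length = [⟨0, by decide⟩] := rfl
    rw [h, List.flatMap_singleton]
  have h2 : (List.finRange sig1.funs.length).flatMap
      (fun i => funTable (S P) i ++ [none]) = [] := by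
    have h : List.finRange sig1.funs.length = [] := rfl
    rw [h, List.flatMap_nil]
  have h3 : relTable (S P) ⟨0, by decide⟩ =
      List.ofFn fun x : Fin n => (some (decide (P x)) : Sym) := by
    apply List.ext_getElem
    · simp [relTable, sig1]
    · intro t h h'
      simp only [relTable, List.getElem_map, List.getElem_finRange, List.getElem_ofFn]
      congr 1
      apply decide_eq_decide.2
      have ht : t < n ^ 1 := by simpa [relTable, sig1] using h
      have hx : (finFunctionFinEquiv.symm (⟨t, ht⟩ : Fin (n ^ 1)) : Fin 1 → Fin n) 0 =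
          ⟨t, by simpa using ht⟩ := by
        apply Fin.ext
        have h4 := finFunctionFinEquiv_apply
          (finFunctionFinEquiv.symm (⟨t, ht⟩ : Fin (n ^ 1)) : Fin 1 → Fin n)
        rw [Equiv.apply_symm_apply] at h4
        simpa using h4.symm
      have h5 := S_relMap P (finFunctionFinEquiv.symm (⟨t, ht⟩ : Fin (n ^ 1)))
      rw [hx] at h5
      exact h5
  rw [word, h1, h2, h3]
  simp

/-! ## The number of types -/

lemma iso_J {n : ℕ} {P Q : Fin n → Prop} (hP : ∀ x y, P x → P y → x = y)
    (hQ : ∀ x y, Q x → Q y → x = y) : Iso (S P) (S Q) ↔ ((∃ x, P x) ↔ ∃ x, Q x) := by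
  rw [iso_S]
  constructor
  · rintro ⟨e, he⟩
    constructor
    · rintro ⟨x, hx⟩
      exact ⟨e x, (he x).1 hx⟩
    · rintro ⟨y, hy⟩
      exact ⟨e.symm y, (he _).2 (by simpa using hy)⟩
  · intro h
    by_cases h1 : ∃ x, P x
    · obtain ⟨x, hx⟩ := h1
      obtain ⟨y, hy⟩ := h.1 ⟨x, hx⟩
      refine ⟨Equiv.swap x y, fun z => ?_⟩
      constructor
      · intro hz
        rw [hP z x hz hx, Equiv.swap_apply_left]
        exact hy
      · intro hz
        have h2 := hQ _ _ hz hy
        have h3 : z = x := by
          have := congrArg (Equiv.swap x y) h2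
          simpa using this
        rw [h3]
        exact hx
    · refine ⟨Equiv.refl _, fun z => ?_⟩
      constructor
      · intro hz
        exact absurd ⟨z, hz⟩ h1
      · intro hz
        exact absurd (h.2 ⟨z, hz⟩) h1

lemma iso_K {n : ℕ} {P Q : Fin n → Prop} (hP : (∀ x, P x) ∨ (∀ x, ¬ P x))
    (hQ : (∀ x, Q x) ∨ (∀ x, ¬ Q x)) : Iso (S P) (S Q) ↔ ((∃ x, P x) ↔ ∃ x, Q x) := by
  rw [iso_S]
  constructor
  · rintro ⟨e, he⟩
    constructor
    · rintro ⟨x, hx⟩
      exact ⟨e x, (he x).1 hx⟩
    · rintro ⟨y, hy⟩
      exact ⟨e.symm y, (he _).2 (by simpa using hy)⟩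
  · intro h
    refine ⟨Equiv.refl _, fun z => ?_⟩
    constructor
    · intro hz
      obtain ⟨y, hy⟩ := h.1 ⟨z, hz⟩
      rcases hQ with hQ | hQ
      · exact hQ _
      · exact absurd hy (hQ y)
    · intro hz
      obtain ⟨y, hy⟩ := h.2 ⟨z, hz⟩
      rcases hP with hP | hP
      · exact hP _
      · exact absurd hy (hP y)

/-- The property that tells isomorphism types apart in both classes. -/
def NE {φ : sig1.lang.Sentence} {n : ℕ} (A : Mem φ n) : Prop :=
  ∃ x : Fin n, @Language.Structure.RelMap sig1.lang (Fin n) A.1 1 U (fun _ => x)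

lemma iso_iff_J {n : ℕ} (A B : Mem phiJ n) : Iso A.1 B.1 ↔ (NE A ↔ NE B) := by
  obtain ⟨A, hA⟩ := A
  obtain ⟨B, hB⟩ := B
  obtain ⟨P, rfl⟩ := eq_S A
  obtain ⟨Q, rfl⟩ := eq_S B
  rw [realize_J] at hA hB
  simp only [NE, S_relMap]
  exact iso_J hA hB

lemma iso_iff_K {n : ℕ} (A B : Mem phiK n) : Iso A.1 B.1 ↔ (NE A ↔ NE B) := by
  obtain ⟨A, hA⟩ := A
  obtain ⟨B, hB⟩ := B
  obtain ⟨P, rfl⟩ := eq_S A
  obtain ⟨Q, rfl⟩ := eq_S B
  rw [realize_K] at hA hB
  simp only [NE, S_relMap]
  exact iso_K hA hB

/-- A class in which isomorphism is decided by `NE`, and both values of `NE` occur among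
the `n`-element members, has exactly two isomorphism types of size `n`. -/
lemma numTypes_eq {φ : sig1.lang.Sentence} {n : ℕ}
    (h : ∀ A B : Mem φ n, Iso A.1 B.1 ↔ (NE A ↔ NE B))
    (h1 : ∃ A : Mem φ n, NE A) (h0 : ∃ A : Mem φ n, ¬ NE A) : numTypes φ n = 2 := by
  classical
  have e : Quotient (isoSetoid φ n) ≃ Bool := by
    refine Equiv.ofBijective (Quotient.lift (fun A => decide (NE A)) ?_) ⟨?_, ?_⟩
    · intro A B hAB
      exact decide_eq_decide.2 ((h A B).1 hAB)
    · intro a b
      induction a using Quotient.inductionOn with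
      | h A =>
        induction b using Quotient.inductionOn with
        | h B =>
          intro hab
          apply Quotient.sound
          exact (h A B).2 (decide_eq_decide.1 hab)
    · intro b
      cases b with
      | false =>
        obtain ⟨A, hA⟩ := h0
        exact ⟨⟦A⟧, by simpa using hA⟩
      | true =>
        obtain ⟨A, hA⟩ := h1
        exact ⟨⟦A⟧, by simpa using hA⟩
  rw [numTypes, Nat.card_congr e]
  simp

lemma numTypes_zero {φ : sig1.lang.Sentence}
    (h : ∀ A B : Mem φ 0, Iso A.1 B.1 ↔ (NE A ↔ NE B))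
    (h0 : ∃ A : Mem φ 0, ¬ NE A) : numTypes φ 0 = 1 := by
  obtain ⟨A, _⟩ := h0
  rw [numTypes, Nat.card_eq_one_iff_unique]
  refine ⟨⟨fun a b => ?_⟩, ⟨⟦A⟧⟩⟩
  induction a using Quotient.inductionOn with
  | h A =>
    induction b using Quotient.inductionOn with
    | h B =>
      apply Quotient.sound
      refine (h A B).2 ⟨?_, ?_⟩
      · rintro ⟨x, _⟩
        exact x.elim0
      · rintro ⟨x, _⟩
        exact x.elim0

/-- The member of `J` in which no element has property `U`. -/
def emptyJ (n : ℕ) : Mem phiJ n :=
  ⟨S fun _ => False, (realize_J _).2 fun _ _ h => h.elim⟩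

/-- The member of `J` in which exactly the element `i` has property `U`. -/
def singleJ {n : ℕ} (i : Fin n) : Mem phiJ n :=
  ⟨S fun x => x = i, (realize_J _).2 fun _ _ h h' => h.trans h'.symm⟩

/-- The member of `K` in which no element has property `U`. -/
def emptyK (n : ℕ) : Mem phiK n :=
  ⟨S fun _ => False, (realize_K _).2 (Or.inr fun _ h => h)⟩

/-- The member of `K` in which all elements have property `U`. -/
def fullK (n : ℕ) : Mem phiK n :=
  ⟨S fun _ => True, (realize_K _).2 (Or.inl fun _ => trivial)⟩

lemma not_NE_emptyJ (n : ℕ) : ¬ NE (emptyJ n) := by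
  rintro ⟨x, hx⟩
  exact (S_relMap (fun _ => False) (fun _ => x)).1 hx

lemma not_NE_emptyK (n : ℕ) : ¬ NE (emptyK n) := by
  rintro ⟨x, hx⟩
  exact (S_relMap (fun _ => False) (fun _ => x)).1 hx

lemma NE_singleJ {n : ℕ} (i : Fin n) : NE (singleJ i) :=
  ⟨i, (S_relMap (fun x => x = i) (fun _ => i)).2 rfl⟩

lemma NE_fullK {n : ℕ} (i : Fin n) : NE (fullK n) :=
  ⟨i, (S_relMap (fun _ => True) (fun _ => i)).2 trivial⟩

lemma numTypes_J {n : ℕ} (hn : 1 ≤ n) : numTypes phiJ n = 2 :=
  numTypes_eq iso_iff_J ⟨singleJ ⟨0, hn⟩, NE_singleJ _⟩ ⟨emptyJ n, not_NE_emptyJ n⟩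

lemma numTypes_K {n : ℕ} (hn : 1 ≤ n) : numTypes phiK n = 2 :=
  numTypes_eq iso_iff_K ⟨fullK n, NE_fullK ⟨0, hn⟩⟩ ⟨emptyK n, not_NE_emptyK n⟩

lemma numTypes_J_eq_K (n : ℕ) : numTypes phiJ n = numTypes phiK n := by
  rcases Nat.eq_zero_or_pos n with rfl | hn
  · rw [numTypes_zero iso_iff_J ⟨emptyJ 0, not_NE_emptyJ 0⟩,
      numTypes_zero iso_iff_K ⟨emptyK 0, not_NE_emptyK 0⟩]
  · rw [numTypes_J hn, numTypes_K hn]

/-! ## A constant time test for `K` -/

/-- The machine that compares the first cells of the two input tapes. -/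
def alpha : TM where
  k := 0
  Q := Option Bool
  finQ := inferInstance
  Γ := Option Sym
  finΓ := inferInstance
  blank := none
  code := some
  start := none
  out := id
  δ := fun _ r => (some (decide (r 0 = r 1)), r, fun _ => 0)

lemma alpha_write (u : List Sym) : alpha.write u 0 = u[0]? := by
  cases u <;> rfl

lemma alpha_delta (q : Option Bool) (r : Fin 2 → Option Sym) :
    (alpha.δ q r).1 = some (decide (r 0 = r 1)) := rfl

lemma alpha_step_q (u v : List Sym) :
    (alpha.step (alpha.init u v)).q = some (decide (u[0]? = v[0]?)) := by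
  have h : ∀ r : Fin 2 → Option Sym, r 0 = u[0]? → r 1 = v[0]? →
      (alpha.δ none r).1 = some (decide (u[0]? = v[0]?)) := by
    intro r h0 h1
    rw [alpha_delta, h0, h1]
  exact h (fun i => (alpha.init u v).tape i 0) (alpha_write u) (alpha_write v)

lemma alpha_run (u v : List Sym) (t : ℕ) (b : Bool) :
    alpha.HaltsIn u v t b ↔ t = 1 ∧ b = decide (u[0]? = v[0]?) := by
  have h0 : alpha.out (alpha.step^[0] (alpha.init u v)).q = none := rfl
  have h1 : alpha.out (alpha.step^[1] (alpha.init u v)).q =
      some (decide (u[0]? = v[0]?)) := alpha_step_q u v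
  constructor
  · rintro ⟨h, h'⟩
    have ht0 : t ≠ 0 := by
      rintro rfl
      rw [h0] at h
      exact absurd h (by simp)
    have ht1 : t ≤ 1 := by
      by_contra hlt
      have := h' 1 (by omega)
      rw [h1] at this
      exact absurd this (by simp)
    have ht : t = 1 := by omega
    subst ht
    rw [h1] at h
    exact ⟨rfl, (Option.some.inj h).symm⟩
  · rintro ⟨rfl, rfl⟩
    refine ⟨h1, fun s hs => ?_⟩
    have : s = 0 := by omega
    subst this
    exact h0

open Classical in
lemma word_zero {n : ℕ} (P : Fin n → Prop) (hn : 0 < n) :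
    (word (S P))[0]? = some (some (decide (P ⟨0, hn⟩))) := by
  rw [word_S, List.getElem?_append_left (by simpa using hn)]
  simp [hn]

lemma alpha_isTest : IsTest phiK alpha := by
  classical
  intro n A B
  refine ⟨1, _, (alpha_run _ _ 1 _).2 ⟨rfl, rfl⟩, ?_⟩
  rw [iso_iff_K, decide_eq_true_iff]
  obtain ⟨A, hA⟩ := A
  obtain ⟨B, hB⟩ := B
  obtain ⟨P, rfl⟩ := eq_S A
  obtain ⟨Q, rfl⟩ := eq_S B
  rw [realize_K] at hA hB
  simp only [NE, S_relMap]
  rcases Nat.eq_zero_or_pos n with rfl | hn
  · have h1 : ¬ ∃ x, P x := fun ⟨x, _⟩ => x.elim0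
    have h2 : ¬ ∃ x, Q x := fun ⟨x, _⟩ => x.elim0
    simp only [h1, h2, iff_self, iff_true]
    rw [word_S, word_S]
    simp
  · rw [word_zero P hn, word_zero Q hn]
    simp only [Option.some.injEq, decide_eq_decide]
    constructor
    · intro h
      constructor
      · rintro ⟨x, hx⟩
        rcases hA with hA | hA
        · exact ⟨⟨0, hn⟩, h.1 (hA _)⟩
        · exact absurd hx (hA x)
      · rintro ⟨x, hx⟩
        rcases hB with hB | hB
        · exact ⟨⟨0, hn⟩, h.2 (hB _)⟩
        · exact absurd hx (hB x)
    · intro h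
      constructor
      · intro h0
        obtain ⟨y, hy⟩ := h.1 ⟨_, h0⟩
        rcases hB with hB | hB
        · exact hB _
        · exact absurd hy (hB y)
      · intro h0
        obtain ⟨y, hy⟩ := h.2 ⟨_, h0⟩
        rcases hA with hA | hA
        · exact hA _
        · exact absurd hy (hA y)

lemma maxTime_alpha (n : ℕ) : maxTime phiK alpha n = 1 := by
  have h : {t | ∃ (A B : Mem phiK n) (b : Bool),
      alpha.HaltsIn (word A.1) (word B.1) t b} = {1} := by
    ext t
    simp only [Set.mem_ofPred_eq, Set.mem_singleton_iff]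
    constructor
    · rintro ⟨A, B, b, h⟩
      exact ((alpha_run _ _ _ _).1 h).1
    · rintro rfl
      exact ⟨emptyK n, emptyK n, _, (alpha_run _ _ 1 _).2 ⟨rfl, rfl⟩⟩
  rw [maxTime, h, csSup_singleton]

/-! ## Every test for `J` needs at least `n` steps -/

lemma haltsIn_unique {M : TM} {u v : List Sym} {t t' : ℕ} {b b' : Bool}
    (h : M.HaltsIn u v t b) (h' : M.HaltsIn u v t' b') : t = t' ∧ b = b' := by
  have ht : t = t' := by
    rcases lt_trichotomy t t' with hlt | heq | hlt
    · have := h'.2 t hlt
      rw [h.1] at this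
      exact absurd this (by simp)
    · exact heq
    · have := h.2 t' hlt
      rw [h'.1] at this
      exact absurd this (by simp)
  subst ht
  have := h.1
  rw [h'.1] at this
  exact ⟨rfl, (Option.some.inj this).symm⟩

/-- If the head of tape `0` never scans cell `i` before step `T`, then the content of that
cell is irrelevant for the first `T` steps. -/
lemma agree (M : TM) (u u' v : List Sym) (i : ℤ)
    (hu : ∀ z, z ≠ i → M.write u z = M.write u' z) (T : ℕ)
    (hT : ∀ s < T, (M.step^[s] (M.init u v)).head 0 ≠ i) :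
    ∀ s ≤ T, (M.step^[s] (M.init u v)).q = (M.step^[s] (M.init u' v)).q ∧
      (M.step^[s] (M.init u v)).head = (M.step^[s] (M.init u' v)).head ∧
      ∀ j z, ¬ (j = 0 ∧ z = i) → (M.step^[s] (M.init u v)).tape j z =
        (M.step^[s] (M.init u' v)).tape j z := by
  intro s
  induction s with
  | zero =>
    intro _
    refine ⟨rfl, rfl, ?_⟩
    intro j z hjz
    show (if j = 0 then M.write u else if j = 1 then M.write v else fun _ => M.blank) z =
      (if j = 0 then M.write u' else if j = 1 then M.write v else fun _ => M.blank) z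
    by_cases hj : j = 0
    · rw [if_pos hj, if_pos hj]
      exact hu z fun hz => hjz ⟨hj, hz⟩
    · rw [if_neg hj, if_neg hj]
  | succ s ih =>
    intro hs
    obtain ⟨h1, h2, h3⟩ := ih (by omega)
    have h4 := hT s (by omega)
    rw [Function.iterate_succ_apply', Function.iterate_succ_apply']
    generalize M.step^[s] (M.init u v) = c at h1 h2 h3 h4
    generalize M.step^[s] (M.init u' v) = c' at h1 h2 h3
    obtain ⟨q, tape, head⟩ := c
    obtain ⟨q', tape', head'⟩ := c'
    simp only at h1 h2 h3 h4
    subst h1 h2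
    unfold TM.step
    simp only
    cases ho : M.out q with
    | some b => exact ⟨rfl, rfl, h3⟩
    | none =>
      have hr : (fun j => tape j (head j)) = fun j => tape' j (head j) := by
        funext j
        apply h3
        rintro ⟨rfl, hz⟩
        exact h4 hz
      simp only [hr]
      refine ⟨trivial, trivial, ?_⟩
      intro j z hjz
      by_cases hz : z = head j
      · subst hz
        simp
      · rw [Function.update_of_ne hz, Function.update_of_ne hz]
        exact h3 j z hjz

open Classical in
lemma word_getElem {n : ℕ} (P : Fin n → Prop) (t : ℕ) (ht : t < n) :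
    (word (S P))[t]? = some (some (decide (P ⟨t, ht⟩))) := by
  rw [word_S, List.getElem?_append_left (by simpa using ht)]
  simp [ht]

lemma word_getElem_ge {n : ℕ} (P Q : Fin n → Prop) (t : ℕ) (ht : n ≤ t) :
    (word (S P))[t]? = (word (S Q))[t]? := by
  classical
  rw [word_S, word_S, List.getElem?_append_right (by simpa using ht),
    List.getElem?_append_right (by simpa using ht)]
  simp

lemma write_eq {n : ℕ} (M : TM) (P Q : Fin n → Prop) (i : Fin n)
    (h : ∀ x, x ≠ i → (P x ↔ Q x)) (z : ℤ) (hz : z ≠ (i.val : ℤ)) :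
    M.write (word (S P)) z = M.write (word (S Q)) z := by
  classical
  unfold TM.write
  split_ifs with h0
  · congr 1
    by_cases hn : z.toNat < n
    · rw [word_getElem P _ hn, word_getElem Q _ hn]
      congr 2
      apply decide_eq_decide.2
      apply h
      intro hi
      apply hz
      rw [← hi]
      simp [h0]
    · exact word_getElem_ge P Q _ (by omega)
  · rfl

instance (n : ℕ) : Finite (Mem phiJ n) := by
  have : Finite (sig1.lang.Structure (Fin n)) := by
    apply Finite.of_surjective (fun P : Fin n → Prop => S P)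
    intro A
    obtain ⟨P, hP⟩ := eq_S A
    exact ⟨P, hP.symm⟩
  exact Subtype.finite

lemma le_time {β : TM} (hβ : IsTest phiJ β) {n t : ℕ} {b : Bool}
    (h : β.HaltsIn (word (emptyJ n).1) (word (emptyJ n).1) t b) : n ≤ t := by
  by_contra hlt
  push Not at hlt
  -- the answer is yes
  obtain ⟨t0, b0, h0, hb0⟩ := hβ n (emptyJ n) (emptyJ n)
  obtain ⟨rfl, rfl⟩ := haltsIn_unique h0 h
  have hbt : b0 = true := hb0.2 ((isoSetoid phiJ n).refl (emptyJ n))
  subst hbt
  -- a cell that is never scanned
  obtain ⟨i, hi⟩ : ∃ i : Fin n, ∀ s < t0,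
      (β.step^[s] (β.init (word (emptyJ n).1) (word (emptyJ n).1))).head 0 ≠ (i.val : ℤ) := by
    by_contra hcon
    push Not at hcon
    choose g hg hg' using hcon
    have hinj : Function.Injective (fun i : Fin n => (⟨g i, hg i⟩ : Fin t0)) := by
      intro i j hij
      have h1 : g i = g j := congrArg Fin.val hij
      have h2 := hg' i
      rw [h1, hg' j] at h2
      apply Fin.ext
      exact_mod_cast h2.symm
    have := Fintype.card_le_of_injective _ hinj
    simp only [Fintype.card_fin] at this
    omega
  have hag := agree β (word (emptyJ n).1) (word (singleJ i).1) (word (emptyJ n).1) i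
    (fun z hz => write_eq β _ _ i (fun x hx => ⟨fun h => h.elim, fun h => hx h⟩) z hz) t0 hi
  have hh : β.HaltsIn (word (singleJ i).1) (word (emptyJ n).1) t0 true := by
    refine ⟨?_, fun s hs => ?_⟩
    · rw [← (hag t0 le_rfl).1]
      exact h.1
    · rw [← (hag s hs.le).1]
      exact h.2 s hs
  obtain ⟨t1, b1, h1, hb1⟩ := hβ n (singleJ i) (emptyJ n)
  obtain ⟨rfl, rfl⟩ := haltsIn_unique h1 hh
  have := (iso_iff_J _ _).1 (hb1.1 rfl)
  exact not_NE_emptyJ n (this.1 (NE_singleJ i))

lemma le_maxTime {β : TM} (hβ : IsTest phiJ β) (n : ℕ) : n ≤ maxTime phiJ β n := by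
  obtain ⟨t, b, h, -⟩ := hβ n (emptyJ n) (emptyJ n)
  refine (le_time hβ h).trans (le_csSup ?_ ⟨_, _, b, h⟩)
  choose T hT using fun p : Mem phiJ n × Mem phiJ n => hβ n p.1 p.2
  choose b' hb' using hT
  apply Set.Finite.bddAbove
  apply (Set.finite_range T).subset
  rintro s ⟨A, B, b, hs⟩
  exact ⟨(A, B), (haltsIn_unique (hb' (A, B)).1 hs).1⟩

/-- The two first-order definable classes `J` (at most one element has property `U`) and
`K` (all or no elements have property `U`) have the same number of isomorphism types in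
every size (namely `2` in every size `n ≥ 1`), `K` has an isomorphism test that always
stops after one step, and every isomorphism test for `J` uses at least `n` steps in
size `n`. -/
theorem explicit :
    (∀ n, numTypes phiJ n = numTypes phiK n) ∧
    (∀ n, 1 ≤ n → numTypes phiJ n = 2) ∧
    (IsTest phiK alpha ∧ ∀ n, maxTime phiK alpha n = 1) ∧
    (∀ β : TM, IsTest phiJ β → ∀ n, n ≤ maxTime phiJ β n) :=
  ⟨numTypes_J_eq_K, fun _ hn => numTypes_J hn, ⟨alpha_isTest, maxTime_alpha⟩,
    fun _ hβ n => le_maxTime hβ n⟩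

/-- **Theorem.**  The assertion of Q1 is false. -/
theorem result : ¬ Q1 := by
  intro hQ
  obtain ⟨p, hp⟩ := hQ sig1 sig1 phiJ phiK
    ⟨X, fun n => by rw [eval_X, numTypes_J_eq_K]⟩
  obtain ⟨β, hβ, hev⟩ := hp alpha alpha_isTest
  have h1 : ∀ᶠ n : ℕ in atTop, (n : ℝ) ≤ p.eval 1 := by
    filter_upwards [hev] with n hn
    rw [maxTime_alpha] at hn
    calc (n : ℝ) ≤ maxTime phiJ β n := by exact_mod_cast le_maxTime hβ n
      _ ≤ _ := by simpa using hn
  obtain ⟨n, hn1, hn2⟩ := (h1.and (eventually_gt_atTop ⌈p.eval 1⌉₊)).exists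
  have : (p.eval 1 : ℝ) < n := lt_of_le_of_lt (Nat.le_ceil _) (by exact_mod_cast hn2)
  linarith

end Pool.Agent.Results.MP_28ce77_lc.CountDoesNotBoundTime
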